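import Pool.Agent.Helper31.TutteDefs
import Pool.Agent.Helper31.TutteQ2

set_option autoImplicit false

namespace Pool.Agent.Results.MP_f03b0a_co.ThreeConnNotTutte

open Pool.Agent.Helper31.Tutte

/-- 3-connectivity is not determined by the Tutte polynomial: there are two connected
Tutte-equivalent multigraphs (on 6 vertices and 13 edges) of which the first is 3-connected and
the second is not. -/
theorem result : ∃ G H : Multigraph (Fin 6) (Fin 13),
    G.tutte = H.tutte ∧ G.Connected ∧ H.Connected ∧ G.IsThreeConnected ∧
      ¬ H.IsThreeConnected :=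
  ⟨gK, gL, tutte_eqKL, connK, connL, threeK, not_threeL⟩

end Pool.Agent.Results.MP_f03b0a_co.ThreeConnNotTutte
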